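import Pool.Agent.N166.PD.Main

/-!
# The sign conjecture for Bloch–Kato Selmer groups follows from the parity conjecture over extension
fields with `2`-hyperelementary Galois action and large odd local degrees

`K` is a number field (on the page: `K = F` imaginary quadratic, or `K = ℚ`, see below), `L` a finite Galois
extension of `K` and `S` a finite set of primes of `K`.  A regular algebraic cuspidal automorphic
representation `π` of `GL_N (𝔸_K)` of motivic weight `-1` enters through its Satake parameters `α v`, `N`
complex numbers of absolute value `N v ^ (-1 / 2)` for almost all primes `v` (purity), and, for a prime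
`p` and a field `k` of characteristic zero (on the page the algebraic closure of `ℚ_p`), through the
`k`-linear representations `ρ₁` and `ρ₀` of the absolute Galois group of `K` on the unions over the finite
extensions `E` of `K` of `H¹_f(E, ρ_π)` and `H⁰(E, ρ_π)`.  The vectors of `ρ₁` fixed by the absolute Galois
group of `E` are `H¹_f(E, ρ_π)` (inflation and restriction, coefficients of characteristic zero), and the
function `L(π_E, s)` over `E` has the Frobenius eigenvalues of `α` over `E` at almost all primes.  For
cuspidal `π` the `H⁰` vanishes by purity, and `L(π, s)` is entire; the sign `ε(π)` is `-1` exactly if the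
order of `L(π, s)` at `s = 0` is odd.

The theorem: let `n` be odd.  There are finitely many number fields `F_j ⊇ K`, integers `e_j` and an ODD
number `c`, such that for every `j` the Galois group of `L F_j / F_j` is `2`-hyperelementary (an extension
of a `2`-group by a cyclic group of odd order) and `n` divides the local degrees of `F_j / K` at the
primes above `S`, and such that for all `π`, `p` at once the defects
`δ = ord_{s=0} L(π, s) - (dim H¹_f - dim H⁰)` satisfy `c δ = ∑ e_j δ_j`.  So, if `δ_j` is even (the parity
conjecture over `F_j`) for those `j` for which `e_j` is odd, then `δ` is even, and if moreover the order of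
`L(π, s)` is odd and `H⁰ = 0` then `H¹_f(K, ρ_π) ≠ 0`; its dimension is odd.

Compared with the equality of orders and dimensions, where `q`-hyperelementary groups for all `q` occur,
for the sign only the prime `2` is needed.  One may take `K = ℚ` and the representations induced from the
imaginary quadratic field `F` (Shapiro's lemma): then only the fields `F_j` which do not contain `F`
matter, because for `F_j ⊇ F` the function `L(π_{F_j}, s) L(π^c_{F_j}, s)` has even order and
`H¹_f(F_j, ρ) ⊕ H¹_f(F_j, ρ^c)` even dimension by the conjugate self-duality; for the others the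
restriction of `π` to `F_j F` is again conjugate self-dual with respect to `F_j`.

The proof.  There are relations `∑ e_j [F_j] = c [K]`, `c` odd, between the permutation characters of
finite extensions `F_j` of `K` with the properties above (`Pool.Agent.N19.BR.core`, helper19, at the prime
`2`).
-/

set_option autoImplicit false

namespace Pool.Agent.Results.MP_b4b3cb_nt.ParityOverSpecialFields

open NumberField IsDedekindDomain Polynomial Pool.Agent.N19.BR.TDef Pool.Agent.N19.BR.MDef
open Pool.Agent.N166.PD (TwoHyperelementaryList)

section
variable {K : Type} [Field K] [NumberField K] {k V₁ V₀ : Type} [Field k]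
  [AddCommGroup V₁] [Module k V₁] [AddCommGroup V₀] [Module k V₀] {N : ℕ}

/-- The parity formula over `K`: for every continuation `Λ` of `L(π, s)` to `U` the number
`ord_{s=0} Λ - (dim H¹_f - dim H⁰)` is even. -/
def ParityOverBase (ρ₁ : Representation k Gal(AlgebraicClosure K/K) V₁)
    (ρ₀ : Representation k Gal(AlgebraicClosure K/K) V₀)
    (α : HeightOneSpectrum (𝓞 K) → Fin N → ℂ) (U : Set ℂ) : Prop :=
  ∀ B : HeightOneSpectrum (𝓞 K) → ℂ[X], FactorsOver α B → Regular B 0 →
    ∀ Λ : ℂ → ℂ, Continues U B 1 Λ → ∃ δ : ℤ, Even δ ∧ meromorphicOrderAt Λ 0 =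
      ((Module.finrank k (Representation.invariants ρ₁) -
        Module.finrank k (Representation.invariants ρ₀) + δ : ℤ) : WithTop ℤ)

/-- The sign statement over `K`: if `H⁰ = 0` and some continuation of `L(π, s)` to `U` has odd order at
`s = 0`, then `H¹_f` is not `0` and of odd dimension. -/
def SignOverBase (ρ₁ : Representation k Gal(AlgebraicClosure K/K) V₁)
    (ρ₀ : Representation k Gal(AlgebraicClosure K/K) V₀)
    (α : HeightOneSpectrum (𝓞 K) → Fin N → ℂ) (U : Set ℂ) : Prop :=
  Representation.invariants ρ₀ = ⊥ →
    (∃ (B : HeightOneSpectrum (𝓞 K) → ℂ[X]) (Λ : ℂ → ℂ) (r : ℤ), FactorsOver α B ∧ Regular B 0 ∧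
      Continues U B 1 Λ ∧ meromorphicOrderAt Λ 0 = (r : WithTop ℤ) ∧ Odd r) →
    Representation.invariants ρ₁ ≠ ⊥ ∧ Odd (Module.finrank k (Representation.invariants ρ₁))

end

/-- **The sign conjecture from the parity conjecture over special fields.**  Let `L/K` be a finite Galois
extension of number fields, `S` a finite set of primes of `K` and `n` odd.  There is a list of number fields
`F_j ⊇ K`, integers `e_j` and an odd number `c` such that for every `j` the Galois group of `L F_j / F_j`
is `2`-hyperelementary and `n` divides the local degrees of `F_j / K` at the primes above `S`, and such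
that the following holds for ALL families `α` of weight `-1`, all fields `k` of characteristic zero, all
`k`-linear representations `ρ₁`, `ρ₀` of the absolute Galois group of `K`, and all connected `U` that
contain `0` and the half-plane `Re s > 1/2`.  Suppose that over all `F_j` the spaces `H¹_f`, `H⁰` are
finite dimensional, the function `L(π_{F_j}, s)` has a meromorphic continuation to `U` and
`ord_{s=0} L(π_{F_j}, s) = dim H¹_f - dim H⁰ + δ_j`, where `δ_j` is even or `e_j` is even.  Then the
spaces over `K` are finite dimensional, the parity formula and the sign statement hold over `K`. -/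
theorem result (K : Type) [Field K] [NumberField K] (L : Type) [Field L] [NumberField L]
    [Algebra K L] [IsGalois K L] (S : Set (HeightOneSpectrum (𝓞 K))) (hS : S.Finite) (n : ℕ)
    (hn : Odd n) :
    ∃ Y : FieldList K, TwoHyperelementaryList L S n Y ∧
      ∀ (N : ℕ) (α : HeightOneSpectrum (𝓞 K) → Fin N → ℂ), Pure (-1) α →
      ∀ (k : Type) [Field k] [CharZero k] (V₁ V₀ : Type) [AddCommGroup V₁] [Module k V₁]
        [AddCommGroup V₀] [Module k V₀]
        (ρ₁ : Representation k Gal(AlgebraicClosure K/K) V₁)
        (ρ₀ : Representation k Gal(AlgebraicClosure K/K) V₀) (U : Set ℂ), Region (-1) U →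
        (0 : ℂ) ∈ U → ∀ δ : Fin Y.r → ℤ, (∀ j, BlochKato ρ₁ ρ₀ α U (δ j) (Y.F j)) →
          (∀ j, Even (Y.e j) ∨ Even (δ j)) →
          FiniteDimensional k (Representation.invariants ρ₁) ∧
            FiniteDimensional k (Representation.invariants ρ₀) ∧
            ParityOverBase ρ₁ ρ₀ α U ∧ SignOverBase ρ₁ ρ₀ α U := by
  obtain ⟨Y, hY, hrel⟩ := Pool.Agent.N166.PD.two_list K L hS hn
  refine ⟨Y, hY, fun N α hα k _ _ V₁ V₀ _ _ _ _ ρ₁ ρ₀ U hU h0 δ hF hpar => ?_⟩
  obtain ⟨h1, h2, h3⟩ :=
    Pool.Agent.N166.PD.defect_of_rel ρ₁ ρ₀ Y.c_ne_zero hrel hα hU h0 hF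
  have hsum : Even (∑ j, Y.e j * δ j) := by
    refine Finset.even_sum _ fun j _ => ?_
    rcases hpar j with h | h
    · exact h.mul_right _
    · exact h.mul_left _
  have hP : ParityOverBase ρ₁ ρ₀ α U := by
    intro B hB hr Λ hΛ
    obtain ⟨d, h4, h5⟩ := h3 B hB hr Λ hΛ
    refine ⟨d, ?_, h4⟩
    have h6 : Even ((Y.c : ℤ) * d) := by
      rw [h5]
      exact hsum
    rcases Int.even_mul.1 h6 with h | h
    · exact absurd ((Int.even_coe_nat _).1 h) (Nat.not_even_iff_odd.2 hY.1)
    · exact h
  refine ⟨h1, h2, hP, ?_⟩
  rintro h7 ⟨B, Λ, r, hB, hr, hΛ, ho, hodd⟩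
  obtain ⟨d, h8, h9⟩ := hP B hB hr Λ hΛ
  rw [ho, h7, finrank_bot] at h9
  have h10 : r = (Module.finrank k (Representation.invariants ρ₁) : ℤ) - (0 : ℕ) + d := by
    exact_mod_cast h9
  have h11 : Odd (Module.finrank k (Representation.invariants ρ₁)) := by
    rw [← Int.odd_coe_nat]
    have : (Module.finrank k (Representation.invariants ρ₁) : ℤ) = r - d := by
      rw [h10]
      push_cast
      ring
    rw [this]
    exact hodd.sub_even h8
  refine ⟨fun h => ?_, h11⟩
  rw [h, finrank_bot] at h11
  exact absurd h11 (by decide)

end Pool.Agent.Results.MP_b4b3cb_nt.ParityOverSpecialFields
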